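import Pool.Agent.Lib.MP_e1fd79_gt.Interfaces

/-!
# MP_e1fd79_gt: completeness (module COMP)
-/

set_option autoImplicit false

open scoped ContDiff Topology
open MeasureTheory Filter Pool.Agent.Lib.MP_e1fd79_gt

namespace Pool.Agent.Lib.MP_e1fd79_gt.H6

theorem conv_of_lip {n : ℕ} (M : RMetric n) (u : ℕ → Fin n → ℝ)
    (hu : ∀ ε > 0, ∃ K, ∀ i ≥ K, ∀ j ≥ K, M.dist (u i) (u j) < ε) (f : (Fin n → ℝ) → ℝ) (C : ℝ)
    (hC : 0 ≤ C) (hf : ∀ x y, |f x - f y| ≤ C * M.dist x y) :
    ∃ l, Tendsto (fun k => f (u k)) atTop (𝓝 l) := by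
  apply cauchySeq_tendsto_of_complete
  rw [Metric.cauchySeq_iff]
  intro ε hε
  obtain ⟨K, hK⟩ := hu (ε / (C + 1)) (by positivity)
  refine ⟨K, fun i hi j hj => ?_⟩
  rw [Real.dist_eq]
  have h1 := hf (u i) (u j)
  have h2 := hK i hi j hj
  have h3 : C * M.dist (u i) (u j) ≤ C * (ε / (C + 1)) := mul_le_mul_of_nonneg_left h2.le hC
  have h4 : C * (ε / (C + 1)) < ε := by
    have : C * (ε / (C + 1)) = ε - ε / (C + 1) := by field_simp; ring
    rw [this]
    have : 0 < ε / (C + 1) := by positivity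
    linarith
  linarith

theorem COMP_holds : CompStatement := by
  intro hLip hSeg P m M hM q K hq hq1 hK h1 h2 h3 u hu
  have hL := hLip P m M hM q K hq hq1 hK h1 h2 h3
  have hK0 : (0 : ℝ) ≤ 2 * √K := by positivity
  have htt : ∀ x : Fin (m + 3) → ℝ, 0 ≤ tt x := fun x => by unfold tt; positivity
  obtain ⟨l, hl⟩ := conv_of_lip M u hu (fun x => Real.log (q + tt x)) _ hK0
    (fun x y => (hL x y).1)
  have hT : Tendsto (fun k => tt (u k)) atTop (𝓝 (Real.exp l - q)) := by
    have e1 := ((Real.continuous_exp.tendsto l).comp hl).sub_const q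
    refine e1.congr fun k => ?_
    change Real.exp (Real.log (q + tt (u k))) - q = tt (u k)
    rw [Real.exp_log (by linarith [htt (u k)])]
    ring
  have hS : Tendsto (fun k => √(1 + tt (u k))) atTop (𝓝 (√(1 + (Real.exp l - q)))) :=
    (Real.continuous_sqrt.tendsto _).comp (hT.const_add 1)
  have hS0 : ∀ k, √(1 + tt (u k)) ≠ 0 := fun k =>
    (Real.sqrt_pos.mpr (by linarith [htt (u k)])).ne'
  have hcoord : ∀ i : Fin (m + 3), ∃ a, Tendsto (fun k => u k i) atTop (𝓝 a) := by
    intro i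
    rcases Nat.lt_or_ge i.val 3 with h | h
    · have hi : i = 0 ∨ i = 1 ∨ i = 2 := by
        have : i.val = 0 ∨ i.val = 1 ∨ i.val = 2 := by omega
        rcases this with h | h | h
        · left; exact Fin.ext h
        · right; left; exact Fin.ext h
        · right; right; exact Fin.ext h
      rcases hi with rfl | rfl | rfl
      · obtain ⟨a, ha⟩ := conv_of_lip M u hu (fun x => x 0 / √(1 + tt x)) _ hK0
          (fun x y => (hL x y).2.1)
        refine ⟨_, (ha.mul hS).congr fun k => ?_⟩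
        exact div_mul_cancel₀ _ (hS0 k)
      · obtain ⟨a, ha⟩ := conv_of_lip M u hu (fun x => x 1 / √(1 + tt x)) _ hK0
          (fun x y => (hL x y).2.2.1)
        refine ⟨_, (ha.mul hS).congr fun k => ?_⟩
        exact div_mul_cancel₀ _ (hS0 k)
      · exact conv_of_lip M u hu (fun x => x 2) _ (by positivity) (fun x y => (hL x y).2.2.2.1)
    · exact conv_of_lip M u hu (fun x => x i) 1 zero_le_one
        (fun x y => by rw [one_mul]; exact (hL x y).2.2.2.2 i h)
  choose x hx using hcoord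
  exact ⟨x, hSeg (m + 3) M u x (tendsto_pi_nhds.mpr hx)⟩

end Pool.Agent.Lib.MP_e1fd79_gt.H6
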