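import Pool.Agent.Lib.MP_e1fd79_gt.Interfaces

/-!
# MP_e1fd79_gt: the logarithmic profile (module PROF)
-/

set_option autoImplicit false

open scoped ContDiff Topology
open MeasureTheory Filter Pool.Agent.Lib.MP_e1fd79_gt

namespace Pool.Agent.Lib.MP_e1fd79_gt.H6

/-- `log (1 + z) / z`, extended by its value at `0`. -/
noncomputable def ell : ℝ → ℝ := dslope (fun z : ℝ => Real.log (1 + z)) 0

theorem mul_ell (z : ℝ) : z * ell z = Real.log (1 + z) := by
  unfold ell
  rcases eq_or_ne z 0 with h | h
  · subst h; simp
  · rw [dslope_of_ne _ h, slope_def_field, add_zero, Real.log_one, sub_zero, sub_zero]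
    field_simp

theorem contDiffAt_ell {z : ℝ} (hz : -1 < z) : ContDiffAt ℝ ∞ ell z := by
  have hlog : AnalyticAt ℝ (fun z : ℝ => Real.log (1 + z)) z :=
    (analyticAt_const.add analyticAt_id).log (by simpa using by linarith)
  rcases eq_or_ne z 0 with h | h
  · subst h
    obtain ⟨p, hp⟩ := hlog
    exact (hp.has_fpower_series_dslope_fslope.analyticAt).contDiffAt
  · have h1 : ContDiffAt ℝ ∞ (fun z : ℝ => Real.log (1 + z) / z) z :=
      hlog.contDiffAt.div contDiffAt_id h
    refine h1.congr_of_eventuallyEq ?_
    filter_upwards [isOpen_ne.mem_nhds h] with y hy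
    rw [eq_div_iff hy, mul_comm]
    exact mul_ell y

theorem dd_pos {lam q : ℝ} (hl : 0 < lam) (hq : 0 < q) : 0 < dd lam q := by
  unfold dd
  positivity

/-- Bounds of the logarithm. -/
theorem log_le_aux {x c : ℝ} (hx : 0 < x) (hc : 0 < c) :
    Real.log x ≤ x / c - 1 + Real.log c := by
  have h := Real.log_le_sub_one_of_pos (div_pos hx hc)
  rw [Real.log_div hx.ne' hc.ne'] at h
  linarith

theorem PROF_holds : ProfStatement := by
  intro lam q hl hq hq1
  have hd := dd_pos hl hq
  set d := dd lam q with hdd
  -- the profile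
  let mu : ℝ → ℝ := fun t => q / (2 * d) * ell (t / d) - lam / 2
  have hmu : ∀ t, 1 - t * mu t = 1 + lam / 2 * t - q / 2 * Real.log (1 + t / d) := by
    intro t
    have h := mul_ell (t / d)
    have h2 : t * mu t = q / 2 * (t / d * ell (t / d)) - lam / 2 * t := by
      change t * (q / (2 * d) * ell (t / d) - lam / 2) = _
      field_simp
    rw [h2, h]
    ring
  have hld : lam * d = q * Real.exp (2 - 2 / q) := by
    rw [hdd]; unfold dd; field_simp
  have hld1 : lam * d ≤ q := by
    rw [hld]
    have : Real.exp (2 - 2 / q) ≤ 1 := by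
      rw [Real.exp_le_one_iff]
      have : 1 ≤ 1 / q := by
        rw [le_div_iff₀ hq]; linarith
      have h2 : 2 / q = 2 * (1 / q) := by ring
      rw [h2]; linarith
    nlinarith
  have hlogd : Real.log (q / (lam * d)) = 2 / q - 2 := by
    rw [hld]
    have : q / (q * Real.exp (2 - 2 / q)) = Real.exp (-(2 - 2 / q)) := by
      rw [Real.exp_neg]
      field_simp
    rw [this, Real.log_exp]
    ring
  have hqq : q * (2 / q) = 2 := by field_simp
  -- the lower bound
  have hlow : ∀ t, 0 ≤ t → q ≤ 1 + lam / 2 * t - q / 2 * Real.log (1 + t / d) := by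
    intro t ht
    have h1 : 1 + t / d = (t + d) / d := by field_simp; ring
    have h2 : 0 < (t + d) / d := by positivity
    have h3 := log_le_aux h2 (show 0 < q / (lam * d) by positivity)
    rw [hlogd] at h3
    have h4 : (t + d) / d / (q / (lam * d)) = lam * (t + d) / q := by
      field_simp
    rw [h4] at h3
    rw [h1]
    have h5 : q / 2 * Real.log ((t + d) / d) ≤ q / 2 * (lam * (t + d) / q - 1 + (2 / q - 2)) :=
      mul_le_mul_of_nonneg_left h3 (by linarith)
    have h6 : q / 2 * (lam * (t + d) / q - 1 + (2 / q - 2)) =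
        lam * (t + d) / 2 - q / 2 + (1 - q) := by
      field_simp
    rw [h6] at h5
    nlinarith
  have hNfun : ∀ (P : Prof), P.mu = mu → P.N =
      fun t => 1 + lam / 2 * t - q / 2 * Real.log (1 + t / d) := by
    intro P hP
    funext t
    unfold Prof.N
    rw [hP]
    exact hmu t
  refine ⟨⟨mu, ?_, ?_⟩, ?_⟩
  · intro t ht
    have h1 : ContDiffAt ℝ ∞ ell (t / d) :=
      contDiffAt_ell (lt_of_lt_of_le (by norm_num) (div_nonneg ht hd.le))
    have h2 : ContDiffAt ℝ ∞ (fun t : ℝ => t / d) t := contDiffAt_id.div_const d
    have h3 : ContDiffAt ℝ ∞ (fun t : ℝ => ell (t / d)) t := h1.comp t h2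
    exact (contDiffAt_const.mul h3).sub contDiffAt_const
  · intro t ht
    rw [hmu t]
    exact lt_of_lt_of_le hq (hlow t ht)
  · set P : Prof := ⟨mu, _, _⟩ with hP
    have hN := hNfun P rfl
    have hder : ∀ t, 0 < t + d → HasDerivAt P.N (lam / 2 - q / 2 / (t + d)) t := by
      intro t ht
      rw [hN]
      have h1 : HasDerivAt (fun t : ℝ => 1 + t / d) (1 / d) t := by
        simpa using ((hasDerivAt_id t).div_const d).const_add 1
      have h2 : (1 : ℝ) + t / d ≠ 0 := by
        have : 1 + t / d = (t + d) / d := by field_simp; ring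
        rw [this]
        positivity
      have h3 := (h1.log h2).const_mul (q / 2)
      have h4 : HasDerivAt (fun t : ℝ => 1 + lam / 2 * t) (lam / 2) t := by
        simpa using ((hasDerivAt_id t).const_mul (lam / 2)).const_add 1
      have h5 := h4.sub h3
      have h6 : q / 2 * (1 / d / (1 + t / d)) = q / 2 / (t + d) := by
        have : 1 + t / d = (t + d) / d := by field_simp; ring
        rw [this]
        field_simp
      rw [h6] at h5
      exact h5
    have hd1 : ∀ t, 0 < t + d → deriv P.N t = lam / 2 - q / 2 / (t + d) :=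
      fun t ht => (hder t ht).deriv
    refine ⟨fun t _ => by rw [hN], fun t ht => hd1 t (by linarith), ?_, ?_, ?_, ?_, ?_⟩
    · intro t ht
      have h0 : 0 < t + d := by linarith
      have h1 : deriv P.N =ᶠ[𝓝 t] fun t => lam / 2 - q / 2 / (t + d) := by
        have : {t : ℝ | 0 < t + d} ∈ 𝓝 t :=
          (isOpen_lt continuous_const (continuous_id.add continuous_const)).mem_nhds h0
        filter_upwards [this] with s hs using hd1 s hs
      rw [h1.deriv_eq]
      have h2 : HasDerivAt (fun t : ℝ => t + d) 1 t := (hasDerivAt_id t).add_const d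
      have h3 := ((hasDerivAt_const t (q / 2)).div h2 h0.ne').const_sub (lam / 2)
      refine h3.deriv.trans ?_
      ring
    · intro t ht
      rw [hN]
      exact hlow t ht
    · rw [hN]
      have h1 : q / 64 / d = lam / 64 * (q / (lam * d)) := by field_simp
      have h2 : Real.log (q / 64 / d) = Real.log (lam / 64) + (2 / q - 2) := by
        rw [h1, Real.log_mul (by positivity) (by positivity), hlogd]
      have h3 : Real.log (q / 64 / d) ≤ Real.log (1 + q / 64 / d) :=
        Real.log_le_log (by positivity) (by linarith)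
      have h4 : Real.log (64 / lam) ≤ 64 / lam - 1 :=
        Real.log_le_sub_one_of_pos (by positivity)
      have h5 : Real.log (lam / 64) = - Real.log (64 / lam) := by
        rw [← Real.log_inv, inv_div]
      have h6 : q / 2 * (Real.log (lam / 64) + (2 / q - 2)) ≤
          q / 2 * Real.log (1 + q / 64 / d) :=
        mul_le_mul_of_nonneg_left (by rw [← h2]; exact h3) (by linarith)
      have h7 : q / 2 * (Real.log (lam / 64) + (2 / q - 2)) =
          q / 2 * Real.log (lam / 64) + 1 - q := by
        field_simp
        ring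
      rw [h7, h5] at h6
      have h8 : q / 2 * Real.log (64 / lam) ≤ q / 2 * (64 / lam - 1) :=
        mul_le_mul_of_nonneg_left h4 (by linarith)
      have h9 : q / 2 * (64 / lam - 1) = 32 / lam * q - q / 2 := by ring
      rw [h9] at h8
      change 1 + lam / 2 * (q / 64) - q / 2 * Real.log (1 + q / 64 / d) ≤ _
      nlinarith
    · intro t ht
      rw [hN]
      change t * (1 + lam / 2 * t - q / 2 * Real.log (1 + t / d)) ≤ _
      rcases ht.eq_or_lt with h0 | h0
      · rw [← h0]
        have : 0 ≤ (1 + lam + 1 / lam) * (q + 0) ^ 2 := by positivity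
        linarith
      · have h1 : t / d = lam * t / q * (q / (lam * d)) := by field_simp
        have h2 : Real.log (t / d) = Real.log (lam * t / q) + (2 / q - 2) := by
          rw [h1, Real.log_mul (by positivity) (by positivity), hlogd]
        have h3 : Real.log (t / d) ≤ Real.log (1 + t / d) :=
          Real.log_le_log (by positivity) (by linarith)
        have h4 : Real.log (q / (lam * t)) ≤ q / (lam * t) - 1 :=
          Real.log_le_sub_one_of_pos (by positivity)
        have h5 : Real.log (lam * t / q) = - Real.log (q / (lam * t)) := by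
          rw [← Real.log_inv, inv_div]
        have h6 : q / 2 * (Real.log (lam * t / q) + (2 / q - 2)) ≤
            q / 2 * Real.log (1 + t / d) :=
          mul_le_mul_of_nonneg_left (by rw [← h2]; exact h3) (by linarith)
        have h7 : q / 2 * (Real.log (lam * t / q) + (2 / q - 2)) =
            q / 2 * Real.log (lam * t / q) + 1 - q := by
          field_simp
          ring
        rw [h7, h5] at h6
        have h8 : q * t / 2 * Real.log (q / (lam * t)) ≤ q * t / 2 * (q / (lam * t) - 1) :=
          mul_le_mul_of_nonneg_left h4 (by positivity)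
        have h9 : q * t / 2 * (q / (lam * t) - 1) = q ^ 2 / 2 * (1 / lam) - q * t / 2 := by
          field_simp
        rw [h9] at h8
        have h10 := mul_le_mul_of_nonneg_left h6 h0.le
        have h11 : 0 < 1 / lam := by positivity
        have h12 : 0 ≤ 1 / lam * (q + t) ^ 2 - q ^ 2 / 2 * (1 / lam) := by
          have : 1 / lam * (q + t) ^ 2 - q ^ 2 / 2 * (1 / lam) =
            1 / lam * (q ^ 2 / 2 + 2 * q * t + t ^ 2) := by ring
          rw [this]; positivity
        have h13 : 0 ≤ lam * (q + t) ^ 2 - lam / 2 * t ^ 2 := by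
          have : lam * (q + t) ^ 2 - lam / 2 * t ^ 2 =
            lam * (q ^ 2 + 2 * q * t + t ^ 2 / 2) := by ring
          rw [this]; positivity
        nlinarith [mul_pos hq h0, sq_nonneg q, sq_nonneg t]
    · intro t ht
      rw [hN]
      change 1 + lam / 2 * t - q / 2 * Real.log (1 + t / d) ≤ _
      have h1 : 0 ≤ Real.log (1 + t / d) :=
        Real.log_nonneg (by linarith [div_nonneg ht hd.le])
      have h2 : 0 ≤ q / 2 * Real.log (1 + t / d) := by positivity
      have h3 : 0 < 1 / lam := by positivity
      have h4 : 0 ≤ lam * t := by positivity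
      have h5 : 0 ≤ 1 / lam * t := by positivity
      nlinarith

end Pool.Agent.Lib.MP_e1fd79_gt.H6
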