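import Pool.Agent.Lib.MP_e1fd79_gt.Interfaces

/-!
# MP_e1fd79_gt: the unit ball contains a tube (module TUBE)
-/

set_option autoImplicit false

open scoped ContDiff Topology
open MeasureTheory Filter Pool.Agent.Lib.MP_e1fd79_gt

namespace Pool.Agent.Lib.MP_e1fd79_gt.H6

/-- The speed of the reparametrisation. -/
noncomputable def rho (r : ℝ) : ℝ := max 0 (6 * r * (1 - r))

/-- The reparametrisation. -/
noncomputable def sig (s : ℝ) : ℝ := ∫ r in (0 : ℝ)..s, rho r

theorem rho_nonneg (r : ℝ) : 0 ≤ rho r := le_max_left _ _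

theorem continuous_rho : Continuous rho := by unfold rho; fun_prop

theorem rho_of_nonpos {r : ℝ} (h : r ≤ 0) : rho r = 0 := by
  unfold rho
  apply max_eq_left
  nlinarith

theorem rho_of_one_le {r : ℝ} (h : 1 ≤ r) : rho r = 0 := by
  unfold rho
  apply max_eq_left
  nlinarith

theorem hasDerivAt_sig (s : ℝ) : HasDerivAt sig (rho s) s :=
  intervalIntegral.integral_hasDerivAt_right (continuous_rho.intervalIntegrable _ _)
    (continuous_rho.stronglyMeasurableAtFilter _ _) continuous_rho.continuousAt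

theorem contDiff_sig : ContDiff ℝ 1 sig := by
  rw [contDiff_one_iff_deriv]
  refine ⟨fun s => (hasDerivAt_sig s).differentiableAt, ?_⟩
  have : deriv sig = rho := funext fun s => (hasDerivAt_sig s).deriv
  rw [this]
  exact continuous_rho

theorem sig_zero : sig 0 = 0 := by unfold sig; simp

theorem sig_of_nonpos {s : ℝ} (h : s ≤ 0) : sig s = 0 := by
  unfold sig
  rw [intervalIntegral.integral_congr (g := fun _ => (0 : ℝ))]
  · simp
  · intro r hr
    rw [Set.uIcc_of_ge h] at hr
    exact rho_of_nonpos hr.2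

theorem sig_one : sig 1 = 1 := by
  unfold sig
  have h1 : ∫ r in (0 : ℝ)..1, rho r = ∫ r in (0 : ℝ)..1, 6 * r * (1 - r) := by
    apply intervalIntegral.integral_congr
    intro r hr
    rw [Set.uIcc_of_le zero_le_one] at hr
    unfold rho
    apply max_eq_right
    have := mul_nonneg hr.1 (sub_nonneg.mpr hr.2)
    nlinarith
  rw [h1]
  have h2 : ∀ r ∈ Set.uIcc (0 : ℝ) 1,
      HasDerivAt (fun r : ℝ => 3 * r ^ 2 - 2 * r ^ 3) (6 * r * (1 - r)) r := by
    intro r _
    have e1 := ((hasDerivAt_pow 2 r).const_mul 3).sub ((hasDerivAt_pow 3 r).const_mul 2)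
    refine e1.congr_deriv ?_
    simp
    ring
  rw [intervalIntegral.integral_eq_sub_of_hasDerivAt h2
    (Continuous.intervalIntegrable (by fun_prop) _ _)]
  norm_num

theorem sig_of_one_le {s : ℝ} (h : 1 ≤ s) : sig s = 1 := by
  have h1 : sig s = sig 1 + ∫ r in (1 : ℝ)..s, rho r := by
    unfold sig
    rw [intervalIntegral.integral_add_adjacent_intervals
      (continuous_rho.intervalIntegrable _ _) (continuous_rho.intervalIntegrable _ _)]
  rw [h1, sig_one, intervalIntegral.integral_congr (g := fun _ => (0 : ℝ))]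
  · simp
  · intro r hr
    rw [Set.uIcc_of_le h] at hr
    exact rho_of_one_le hr.1

/-- The curve. -/
noncomputable def crv {n : ℕ} (p a b : Fin n → ℝ) (s : ℝ) : Fin n → ℝ :=
  p + (sig (2 * s) • a + sig (2 * s - 1) • b)

theorem hasDerivAt_crv {n : ℕ} (p a b : Fin n → ℝ) (s : ℝ) :
    HasDerivAt (crv p a b) ((2 * rho (2 * s)) • a + (2 * rho (2 * s - 1)) • b) s := by
  have h1 : HasDerivAt (fun s : ℝ => sig (2 * s)) (2 * rho (2 * s)) s := by
    have e1 : HasDerivAt (fun s : ℝ => 2 * s) 2 s := by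
      simpa using (hasDerivAt_id s).const_mul 2
    have e2 := (hasDerivAt_sig (2 * s)).comp s e1
    rw [mul_comm] at e2
    exact e2
  have h2 : HasDerivAt (fun s : ℝ => sig (2 * s - 1)) (2 * rho (2 * s - 1)) s := by
    have e1 : HasDerivAt (fun s : ℝ => 2 * s - 1) 2 s := by
      simpa using ((hasDerivAt_id s).const_mul 2).sub_const 1
    have e2 := (hasDerivAt_sig (2 * s - 1)).comp s e1
    rw [mul_comm] at e2
    exact e2
  exact ((h1.smul_const a).add (h2.smul_const b)).const_add p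

theorem contDiff_crv {n : ℕ} (p a b : Fin n → ℝ) : ContDiff ℝ 1 (crv p a b) := by
  have h1 : ContDiff ℝ 1 (fun s : ℝ => sig (2 * s)) :=
    contDiff_sig.comp (contDiff_const.mul contDiff_id)
  have h2 : ContDiff ℝ 1 (fun s : ℝ => sig (2 * s - 1)) :=
    contDiff_sig.comp ((contDiff_const.mul contDiff_id).sub contDiff_const)
  exact contDiff_const.add ((h1.smul contDiff_const).add (h2.smul contDiff_const))

theorem dist_le_of_speed {n : ℕ} (M : RMetric n) (p a b : Fin n → ℝ)
    (h : ∀ s ∈ Set.Icc (0 : ℝ) 1,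
      √(M.inner (crv p a b s) ((2 * rho (2 * s)) • a + (2 * rho (2 * s - 1)) • b)
        ((2 * rho (2 * s)) • a + (2 * rho (2 * s - 1)) • b)) ≤
      rho (2 * s) + 2 / 3 * rho (2 * s - 1)) :
    M.dist p (p + (a + b)) ≤ 5 / 6 := by
  have hbdd : BddBelow {L : ℝ | ∃ c : ℝ → Fin n → ℝ, ContDiff ℝ 1 c ∧ c 0 = p ∧
      c 1 = p + (a + b) ∧ M.length c = L} := by
    refine ⟨0, ?_⟩
    rintro L ⟨c, _, _, _, rfl⟩
    exact intervalIntegral.integral_nonneg zero_le_one fun s _ => Real.sqrt_nonneg _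
  have hmem : M.length (crv p a b) ∈ {L : ℝ | ∃ c : ℝ → Fin n → ℝ, ContDiff ℝ 1 c ∧ c 0 = p ∧
      c 1 = p + (a + b) ∧ M.length c = L} := by
    refine ⟨crv p a b, contDiff_crv p a b, ?_, ?_, rfl⟩
    · unfold crv
      rw [sig_of_nonpos (by norm_num), sig_of_nonpos (by norm_num)]
      simp
    · unfold crv
      rw [sig_of_one_le (by norm_num), sig_of_one_le (by norm_num)]
      simp
  refine (csInf_le hbdd hmem).trans ?_
  have hder : deriv (crv p a b) =
      fun s => (2 * rho (2 * s)) • a + (2 * rho (2 * s - 1)) • b :=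
    funext fun s => (hasDerivAt_crv p a b s).deriv
  have hF : ∀ s ∈ Set.uIcc (0 : ℝ) 1, HasDerivAt
      (fun s : ℝ => 1 / 2 * sig (2 * s) + 1 / 3 * sig (2 * s - 1))
      (rho (2 * s) + 2 / 3 * rho (2 * s - 1)) s := by
    intro s _
    have e1 : HasDerivAt (fun s : ℝ => 2 * s) 2 s := by
      simpa using (hasDerivAt_id s).const_mul 2
    have e2 := ((hasDerivAt_sig (2 * s)).comp s e1).const_mul (1 / 2)
    have e3 : HasDerivAt (fun s : ℝ => 2 * s - 1) 2 s := by
      simpa using ((hasDerivAt_id s).const_mul 2).sub_const 1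
    have e4 := ((hasDerivAt_sig (2 * s - 1)).comp s e3).const_mul (1 / 3)
    refine (e2.add e4).congr_deriv ?_
    ring
  have hcont : Continuous fun s : ℝ => rho (2 * s) + 2 / 3 * rho (2 * s - 1) := by
    have := continuous_rho
    fun_prop
  have hint : ∫ s in (0 : ℝ)..1, (rho (2 * s) + 2 / 3 * rho (2 * s - 1)) = 5 / 6 := by
    rw [intervalIntegral.integral_eq_sub_of_hasDerivAt hF (hcont.intervalIntegrable _ _),
      sig_of_one_le (by norm_num : (1 : ℝ) ≤ 2 * 1),
      sig_of_one_le (by norm_num : (1 : ℝ) ≤ 2 * 1 - 1),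
      sig_of_nonpos (by norm_num : 2 * (0 : ℝ) ≤ 0),
      sig_of_nonpos (by norm_num : 2 * (0 : ℝ) - 1 ≤ 0)]
    norm_num
  rw [← hint]
  unfold RMetric.length
  rw [hder]
  refine (le_abs_self _).trans ?_
  rw [← Real.norm_eq_abs]
  refine intervalIntegral.norm_integral_le_of_norm_le zero_le_one ?_
    (hcont.intervalIntegrable _ _)
  refine Filter.Eventually.of_forall fun s hs => ?_
  rw [Real.norm_eq_abs, abs_of_nonneg (Real.sqrt_nonneg _)]
  exact h s ⟨hs.1.le, hs.2⟩

theorem TUBE_holds : QFStatement → TubeStatement := by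
  intro hQF P m M hM q t0 Y hq hq1 hN ht0 ht0' hY hNY x htx hx2 hzx
  set p : Fin (m + 3) → ℝ := fun i => if i.val = 0 then √t0 else 0 with hp
  let a : Fin (m + 3) → ℝ := fun i => if i.val = 2 then x 2 else 0
  let b : Fin (m + 3) → ℝ := fun i => x i - p i - a i
  have hx : x = p + (a + b) := by
    funext i
    change x i = p i + (a i + (x i - p i - a i))
    ring
  have p0 : p 0 = √t0 := rfl
  have p1 : p 1 = 0 := rfl
  have p2 : p 2 = 0 := rfl
  have p3 : ∀ i : Fin m, p i.succ.succ.succ = 0 := fun i => rfl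
  have a0 : a 0 = 0 := rfl
  have a1 : a 1 = 0 := rfl
  have a2 : a 2 = x 2 := rfl
  have a3 : ∀ i : Fin m, a i.succ.succ.succ = 0 := by
    intro i
    change (if i.succ.succ.succ.val = 2 then x 2 else 0) = 0
    rw [if_neg]
    simp only [Fin.val_succ]
    omega
  have b0 : b 0 = x 0 - √t0 := by change x 0 - p 0 - a 0 = _; rw [p0, a0, sub_zero]
  have b1 : b 1 = x 1 := by change x 1 - p 1 - a 1 = _; rw [p1, a1, sub_zero, sub_zero]
  have b2 : b 2 = 0 := by change x 2 - p 2 - a 2 = _; rw [p2, a2]; ring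
  have b3 : ∀ i : Fin m, b i.succ.succ.succ = x i.succ.succ.succ := by
    intro i
    change x _ - p i.succ.succ.succ - a i.succ.succ.succ = _
    rw [p3, a3, sub_zero, sub_zero]
  have hst : √t0 ^ 2 = t0 := Real.sq_sqrt ht0
  have hst0 : 0 ≤ √t0 := Real.sqrt_nonneg _
  have key : M.dist p (p + (a + b)) ≤ 5 / 6 := by
    apply dist_le_of_speed
    rintro s ⟨hs0, hs1⟩
    set r1 := rho (2 * s) with hr1
    set r2 := rho (2 * s - 1) with hr2
    have hr1' : 0 ≤ r1 := rho_nonneg _
    have hr2' : 0 ≤ r2 := rho_nonneg _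
    set v : Fin (m + 3) → ℝ := (2 * r1) • a + (2 * r2) • b with hv
    have hinner : M.inner (crv p a b s) v v = P.qf (crv p a b s) v := by
      unfold RMetric.inner
      rw [hM]
      exact hQF P m _ _
    rw [hinner]
    have v0 : v 0 = 2 * r2 * (x 0 - √t0) := by
      change 2 * r1 * a 0 + 2 * r2 * b 0 = _
      rw [a0, b0]; ring
    have v1 : v 1 = 2 * r2 * x 1 := by
      change 2 * r1 * a 1 + 2 * r2 * b 1 = _
      rw [a1, b1]; ring
    have v2 : v 2 = 2 * r1 * x 2 := by
      change 2 * r1 * a 2 + 2 * r2 * b 2 = _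
      rw [a2, b2]; ring
    have vz : zz v = (2 * r2) ^ 2 * zz x := by
      unfold zz
      rw [Finset.mul_sum]
      refine Finset.sum_congr rfl fun i _ => ?_
      change (2 * r1 * a i.succ.succ.succ + 2 * r2 * b i.succ.succ.succ) ^ 2 = _
      rw [a3, b3]; ring
    rw [Real.sqrt_le_left (by positivity)]
    unfold Prof.qf
    rw [vz, v0, v1, v2]
    rcases le_total s (1 / 2) with h | h
    · -- first half
      have z2 : r2 = 0 := rho_of_nonpos (by linarith)
      have hc0 : crv p a b s 0 = √t0 := by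
        change p 0 + (sig (2 * s) * a 0 + sig (2 * s - 1) * b 0) = _
        rw [p0, a0, sig_of_nonpos (by linarith : 2 * s - 1 ≤ 0)]; ring
      have hc1 : crv p a b s 1 = 0 := by
        change p 1 + (sig (2 * s) * a 1 + sig (2 * s - 1) * b 1) = _
        rw [p1, a1, sig_of_nonpos (by linarith : 2 * s - 1 ≤ 0)]; ring
      have htt : tt (crv p a b s) = t0 := by
        unfold tt
        rw [hc0, hc1, hst]; ring
      rw [htt, z2, hc0, hc1]
      have hx22 : x 2 ^ 2 ≤ Y ^ 2 := by
        rw [← sq_abs (x 2)]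
        exact pow_le_pow_left₀ (abs_nonneg _) hx2 2
      have hNt : 0 ≤ P.N t0 := hq.le.trans (hN t0 ht0)
      have e1 : P.N t0 * x 2 ^ 2 ≤ 1 / 4 :=
        (mul_le_mul_of_nonneg_left hx22 hNt).trans hNY
      have e2 : 0 ≤ r1 ^ 2 := sq_nonneg _
      nlinarith
    · -- second half
      have z1 : r1 = 0 := rho_of_one_le (by linarith)
      rw [z1]
      have htn : 0 ≤ tt (crv p a b s) := by unfold tt; positivity
      have hNc := hN _ htn
      have hNeq : P.N (tt (crv p a b s)) =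
          1 - tt (crv p a b s) * P.mu (tt (crv p a b s)) := rfl
      set T := tt (crv p a b s) with hT
      set μ := P.mu T with hμ
      set NN := P.N T with hNN
      have hNNpos : 0 < NN := lt_of_lt_of_le hq hNc
      set c0 := crv p a b s 0
      set c1 := crv p a b s 1
      have hTc : T = c0 ^ 2 + c1 ^ 2 := rfl
      set w0 := 2 * r2 * (x 0 - √t0) with hw0
      set w1 := 2 * r2 * x 1 with hw1
      -- F2
      have hF2 : w0 ^ 2 + w1 ^ 2 + μ / NN * (c0 * w0 + c1 * w1) ^ 2 ≤ (w0 ^ 2 + w1 ^ 2) / q := by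
        have hCS : (c0 * w0 + c1 * w1) ^ 2 ≤ T * (w0 ^ 2 + w1 ^ 2) := by
          rw [hTc]
          nlinarith [sq_nonneg (c0 * w1 - c1 * w0)]
        have hw : 0 ≤ w0 ^ 2 + w1 ^ 2 := by positivity
        have hq' : w0 ^ 2 + w1 ^ 2 ≤ (w0 ^ 2 + w1 ^ 2) / q := by
          rw [le_div_iff₀ hq]
          nlinarith
        rcases le_total μ 0 with hm | hm
        · have : μ / NN * (c0 * w0 + c1 * w1) ^ 2 ≤ 0 :=
            mul_nonpos_of_nonpos_of_nonneg (div_nonpos_of_nonpos_of_nonneg hm hNNpos.le)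
              (sq_nonneg _)
          linarith
        · have h1 : μ / NN * (c0 * w0 + c1 * w1) ^ 2 ≤ μ / NN * (T * (w0 ^ 2 + w1 ^ 2)) :=
            mul_le_mul_of_nonneg_left hCS (div_nonneg hm hNNpos.le)
          have h2 : w0 ^ 2 + w1 ^ 2 + μ / NN * (T * (w0 ^ 2 + w1 ^ 2)) =
              (w0 ^ 2 + w1 ^ 2) / NN := by
            have : T * μ = 1 - NN := by rw [hNeq]; ring
            rw [eq_div_iff hNNpos.ne']
            have h3 : (w0 ^ 2 + w1 ^ 2 + μ / NN * (T * (w0 ^ 2 + w1 ^ 2))) * NN =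
              (w0 ^ 2 + w1 ^ 2) * (NN + T * μ) := by field_simp
            rw [h3, this]; ring
          have h4 : (w0 ^ 2 + w1 ^ 2) / NN ≤ (w0 ^ 2 + w1 ^ 2) / q :=
            div_le_div_of_nonneg_left hw hq hNc
          linarith
      have htx' : x 0 ^ 2 + x 1 ^ 2 ≤ t0 := htx
      have hb : (x 0 - √t0) ^ 2 + x 1 ^ 2 ≤ 4 * t0 := by
        have h1 : |x 0| ≤ √t0 := by
          apply Real.abs_le_sqrt
          nlinarith [sq_nonneg (x 1)]
        have h2 : -√t0 ≤ x 0 := (abs_le.mp h1).1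
        nlinarith
      have hw4 : (w0 ^ 2 + w1 ^ 2) / q ≤ (2 * r2) ^ 2 * (1 / 16) := by
        rw [div_le_iff₀ hq]
        have : w0 ^ 2 + w1 ^ 2 = (2 * r2) ^ 2 * ((x 0 - √t0) ^ 2 + x 1 ^ 2) := by
          rw [hw0, hw1]; ring
        rw [this, mul_assoc]
        apply mul_le_mul_of_nonneg_left _ (sq_nonneg _)
        linarith
      have hz4 : (2 * r2) ^ 2 * zz x ≤ (2 * r2) ^ 2 * (1 / 64) :=
        mul_le_mul_of_nonneg_left hzx (sq_nonneg _)
      have hr : 0 ≤ r2 ^ 2 := sq_nonneg _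
      nlinarith
  rw [hx]
  exact lt_of_le_of_lt key (by norm_num)

end Pool.Agent.Lib.MP_e1fd79_gt.H6
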